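import Mathlib
import Pool.Agent.TH170.GS.Defs
import Pool.Agent.W495.FM.HomDefs

/-!
# Abelian varieties over finite fields with given Frobenius numbers, and the schemes generated by them:
definitions
-/

namespace Pool.Agent.K4H22.P

open Pool.Agent.W495.TA Pool.Agent.W495.FM

/-- Each factor of the abelian variety `Y` over the field with `p ^ a` elements is supersingular or
some power of its Frobenius endomorphism, the power with exponent `s`, say, is the power with exponent
`t` of one of the Weil `p ^ n`-numbers `π i` (under an embedding of `K i` in the CM field of the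
factor), where `a s = n t`. So over an algebraic closure `Y` is isogenous to a product of a
supersingular abelian variety and of powers of the simple abelian varieties over the field with `p ^ n`
elements with the Weil numbers `π i`. -/
def OfFrobenius {p : ℕ} [Fact p.Prime] {ν : PadicAlgCl p ≃+* ℂ} (n : ℕ) {I : Type} {K : I → Type}
    [∀ i, Field (K i)] (π : ∀ i, K i) (Y : RedAV p ν) : Prop :=
  ∀ k : Y.X.I, Pool.Agent.TH170.GS.IsSupersingular p Y.a (Y.π k) ∨
    ∃ (i : I) (θ : K i →+* (Y.X.factor k).E) (s t : ℕ), 0 < s ∧ Y.a * s = n * t ∧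
      Y.π k ^ s = θ (π i ^ t)

/-- The groups of motivic and of `ℓ`-adic homology of `X` are those of an abelian variety `Y` of the
type just described. -/
def IsAbelianOfFrobenius {p : ℕ} [Fact p.Prime] (ν : PadicAlgCl p ≃+* ℂ) (n : ℕ) {I : Type}
    {K : I → Type} [∀ i, Field (K i)] (π : ∀ i, K i) {Ω V : Type} [Field Ω]
    [CharZero Ω] (T : Homology Ω V) (X : V) : Prop :=
  ∃ (Y : RedAV p ν) (C : Cycles Ω Y) (D : Motivic C) (g : ℕ), OfFrobenius n π Y ∧ IsChow C ∧
    IsMotivic D ∧ IsAbelian T X D g

end Pool.Agent.K4H22.P
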