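import Mathlib
import Pool.Agent.K4H22.P.Defs
import Pool.Agent.K4H21.CT.TypesOrd
import Pool.Agent.TH170.GS.TB

/-!
# The relations between the Frobenius eigenvalues of products of powers of abelian varieties with good
Weil numbers
-/

set_option linter.unusedSectionVars false
set_option linter.unusedVariables false

namespace Pool.Agent.K4H22.P

open NumberField Finset Module Pool.Agent.H204R3.CM Pool.Agent.H977R3.CM Pool.Agent.H977R3.WN
  Pool.Agent.TH170.CM Pool.Agent.TH170.MF Pool.Agent.W495.TA Pool.Agent.W495.FM Pool.Agent.TH117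
  Pool.Agent.TH117.GN Pool.Agent.TH170.FW Pool.Agent.TH170.GS Pool.Agent.K4H22.Z

/-- Two embeddings of the algebraic numbers in a field. -/
theorem exists_aut_closure {Ω : Type*} [Field Ω] [CharZero Ω]
    (a b : AlgebraicClosure ℚ →+* Ω) :
    ∃ σ : AlgebraicClosure ℚ ≃+* AlgebraicClosure ℚ, ∀ x, a x = b (σ x) := by
  have _ := isAlg
  have _ : Normal ℚ (AlgebraicClosure ℚ) := normal_iff.2 fun x =>
    ⟨Algebra.IsIntegral.isIntegral x, IsAlgClosed.splits _⟩
  let _ : Algebra (AlgebraicClosure ℚ) Ω := b.toAlgebra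
  have _ : IsScalarTower ℚ (AlgebraicClosure ℚ) Ω := IsScalarTower.of_algebraMap_eq fun x => by
    change algebraMap ℚ Ω x = b (algebraMap ℚ (AlgebraicClosure ℚ) x)
    simp
  let a' : AlgebraicClosure ℚ →ₐ[ℚ] Ω := a.toRatAlgHom
  refine ⟨(Normal.algHomEquivAut ℚ Ω (AlgebraicClosure ℚ) a' : _ ≃ₐ[ℚ] _), fun x => ?_⟩
  have h := (Normal.algHomEquivAut ℚ Ω (AlgebraicClosure ℚ)).symm_apply_apply a'
  have h2 := DFunLike.congr_fun h x
  exact h2.symm

variable {p : ℕ} [Fact p.Prime] {ν : PadicAlgCl p ≃+* ℂ} {I : Type} [Fintype I] {K : I → Type}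
  [∀ i, Field (K i)] [∀ i, NumberField (K i)] [∀ i, IsCMField (K i)]

theorem exists_sigma (ν : PadicAlgCl p ≃+* ℂ) (j0 : AlgebraicClosure ℚ →+* ℂ)
    (J : AlgebraicClosure ℚ →+* PadicAlgCl p) :
    ∃ σ : ℂ ≃+* ℂ, ∀ x, ν.symm (σ (j0 x)) = J x := by
  obtain ⟨t, ht⟩ := exists_aut_closure ((ν : PadicAlgCl p →+* ℂ).comp J) j0
  obtain ⟨σ, hσ⟩ := Pool.Agent.H977R3.CM.exists_aut j0 t
  refine ⟨σ, fun x => ?_⟩
  rw [hσ, ← ht]
  exact ν.symm_apply_apply (J x)

/-- Every complex embedding of a number field factors through the algebraic numbers. -/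
theorem exists_factor {E : Type} [Field E] [NumberField E] (j0 : AlgebraicClosure ℚ →+* ℂ)
    (ψ : E →+* ℂ) : ∃ φ : E →+* AlgebraicClosure ℚ, j0.comp φ = ψ := by
  let φ0 : E →+* AlgebraicClosure ℚ := Classical.arbitrary _
  obtain ⟨L, _, _, j, hj⟩ := exists_galois (fun _ : Unit => E)
  obtain ⟨φ, hφ⟩ := hj () ψ
  let k : L →+* AlgebraicClosure ℚ := Classical.arbitrary _
  obtain ⟨g, hg⟩ := Pool.Agent.K4H22.Z.exists_aut j (j0.comp k)
  refine ⟨(k.comp (g : L →+* L)).comp φ, RingHom.ext fun x => ?_⟩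
  rw [← hφ]
  exact (hg (φ x)).symm

/-- All relations between the Frobenius eigenvalues of products of powers of abelian varieties with
good Weil numbers are elementary. -/
theorem elementary_of_spans {n : ℕ} (hn : 0 < n) {π : ∀ i, K i} (hW : π ∈ Weil p K n)
    (hs : Spans p K (dv p n π)) {Y : RedAV p ν} (hY : OfFrobenius n π Y) :
    BL.HasElementaryRelations Y := by
  classical
  intro e he
  let S : Y.X.I → Prop := fun k =>
    ∃ s : ℕ, 0 < s ∧ Y.π k ^ (2 * s) = ((p : (Y.X.factor k).E) ^ Y.a) ^ s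
  have hY' : ∀ k, ¬ S k → ∃ (i : I) (θ : K i →+* (Y.X.factor k).E) (s t : ℕ), 0 < s ∧
      Y.a * s = n * t ∧ Y.π k ^ s = θ (π i ^ t) := fun k hk =>
    (hY k).resolve_left hk
  choose t θ s r hs0 hsr hθ using hY'
  have hn0 : (n : ℝ) ≠ 0 := Nat.cast_ne_zero.2 hn.ne'
  let κ : ℝ := (Y.a : ℝ) / n
  have hκ : κ ≠ 0 := div_ne_zero (Nat.cast_ne_zero.2 Y.pos.ne') hn0
  let ε : ∀ i, (K i →+* ℂ) → ℝ := fun i φ =>
    dv p n π i ((ν.symm : ℂ →+* PadicAlgCl p).comp φ)
  have hεc : ∀ i φ, ε i (ComplexEmbedding.conjugate φ) = - ε i φ := by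
    intro i φ
    simp only [ε]
    rw [← dv_cbar hW i]
    congr 1
    exact congrArg _ (comp_cbar (RingHom.id ℂ) φ).symm
  let X : Type := Σ i, (K i →+* ℂ)
  let inv : X → X := fun z => ⟨z.1, ComplexEmbedding.conjugate z.2⟩
  have hinv : ∀ z, inv (inv z) = z := by
    rintro ⟨i, φ⟩
    simp only [inv, conj_conj]
  let F : BL.Emb Y → Option X := fun w =>
    if h : S w.1 then none else some ⟨t w.1 h, w.2.comp (θ w.1 h)⟩
  have hF1 : ∀ w, S w.1 → F w = none := fun w h => dif_pos h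
  have hF2 : ∀ w (h : ¬ S w.1), F w = some ⟨t w.1 h, w.2.comp (θ w.1 h)⟩ := fun w h => dif_neg h
  have hFc : ∀ w z, F w = some z → F (conjE w) = some (inv z) := by
    intro w z hz
    by_cases h : S w.1
    · rw [hF1 w h] at hz
      exact absurd hz (by simp)
    · rw [hF2 w h] at hz
      rw [← Option.some.inj hz, hF2 (conjE w) h]
      rfl
  -- the slopes
  have hdev0 : ∀ w, F w = none → ∀ σ, dev Y σ w = 0 := by
    intro w hw σ
    have h : S w.1 := by
      by_contra h
      rw [hF2 w h] at hw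
      exact absurd hw (by simp)
    have h1 := sum_dev_of_isRel (isRel_single w h) σ
    rw [sum_eq_single w] at h1
    · rwa [Pi.single_eq_same, Nat.cast_one, one_mul] at h1
    · intro v _ hv
      rw [Pi.single_eq_of_ne hv, Nat.cast_zero, zero_mul]
    · intro h
      exact absurd (mem_univ _) h
  have hdev : ∀ w z, F w = some z → ∀ σ : ℂ ≃+* ℂ,
      dev Y σ w = κ * ε z.1 ((σ : ℂ →+* ℂ).comp z.2) := by
    intro w z hz σ
    by_cases h : S w.1
    · rw [hF1 w h] at hz
      exact absurd hz (by simp)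
    · rw [hF2 w h] at hz
      rw [← Option.some.inj hz]
      have h2 : σ (w.2 (θ w.1 h (π (t w.1 h)))) ^ r w.1 h = σ (BL.eig Y w) ^ s w.1 h := by
        rw [← map_pow, ← map_pow, ← map_pow, ← hθ w.1 h, map_pow, map_pow]
        rfl
      have h1 := congrArg (fun y => Real.logb p ‖ν.symm y‖) h2
      simp only [map_pow, norm_pow, Real.logb_pow] at h1
      have hs1 : (s w.1 h : ℝ) ≠ 0 := Nat.cast_ne_zero.2 (hs0 w.1 h).ne'
      have h4 : (Y.a : ℝ) * s w.1 h = n * r w.1 h := by exact_mod_cast hsr w.1 h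
      have h5 : ε (t w.1 h) ((σ : ℂ →+* ℂ).comp (w.2.comp (θ w.1 h))) =
          2 * (- Real.logb p ‖ν.symm (σ (w.2 (θ w.1 h (π (t w.1 h)))))‖) - n := rfl
      change dev Y σ w = κ * ε (t w.1 h) ((σ : ℂ →+* ℂ).comp (w.2.comp (θ w.1 h)))
      rw [h5]
      apply mul_left_cancel₀ hs1
      have h6 : κ * n = Y.a := by
        simp only [κ]
        field_simp
      have h7 : (s w.1 h : ℝ) * κ = r w.1 h := by
        apply mul_right_cancel₀ hn0
        rw [mul_assoc, h6]
        linarith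
      unfold dev
      have h8 : (s w.1 h : ℝ) * (2 * (- Real.logb p ‖ν.symm (σ (BL.eig Y w))‖) - Y.a) =
          2 * (-(s w.1 h * Real.logb p ‖ν.symm (σ (BL.eig Y w))‖)) - Y.a * s w.1 h := by ring
      have h9 : (s w.1 h : ℝ) * (κ * (2 * (- Real.logb p
          ‖ν.symm (σ (w.2 (θ w.1 h (π (t w.1 h)))))‖) - n)) =
          2 * (-((s w.1 h * κ) * Real.logb p
            ‖ν.symm (σ (w.2 (θ w.1 h (π (t w.1 h)))))‖)) - n * (s w.1 h * κ) := by ring
      rw [h8, h9, h7, h1, h4]
  -- the antisymmetric exponents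
  let a : X → ℤ := fun z =>
    ∑ w : BL.Emb Y, (e w : ℤ) * ((if F w = some z then 1 else 0) -
      (if F w = some (inv z) then 1 else 0))
  have hc : ∀ z, a (inv z) = - a z := by
    intro z
    simp only [a]
    rw [hinv, ← sum_neg_distrib]
    exact sum_congr rfl fun w _ => by ring
  have hrel' : ∀ σ : ℂ ≃+* ℂ, ∑ z : X, (a z : ℝ) * ε z.1 ((σ : ℂ →+* ℂ).comp z.2) = 0 := by
    intro σ
    apply mul_left_cancel₀ hκ
    rw [mul_zero]
    have h1 : κ * ∑ z : X, (a z : ℝ) * ε z.1 ((σ : ℂ →+* ℂ).comp z.2) =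
        ∑ z : X, ∑ w : BL.Emb Y, (e w : ℝ) * (((if F w = some z then 1 else 0) -
          (if F w = some (inv z) then 1 else 0)) *
            (κ * ε z.1 ((σ : ℂ →+* ℂ).comp z.2))) := by
      rw [mul_sum]
      refine sum_congr rfl fun z _ => ?_
      simp only [a]
      push_cast
      rw [sum_mul, mul_sum]
      refine sum_congr rfl fun w _ => ?_
      ring
    rw [h1, sum_comm]
    have h2 : ∀ w : BL.Emb Y, ∑ z : X, (e w : ℝ) * (((if F w = some z then 1 else 0) -
          (if F w = some (inv z) then 1 else 0)) *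
            (κ * ε z.1 ((σ : ℂ →+* ℂ).comp z.2))) = 2 * ((e w : ℝ) * dev Y σ w) := by
      intro w
      rw [← mul_sum]
      rcases hw : F w with _ | z
      · rw [hdev0 w hw]
        simp
      · have h3 : ∀ z' : X, (((if some z = some z' then (1 : ℝ) else 0) -
            (if some z = some (inv z') then 1 else 0)) *
              (κ * ε z'.1 ((σ : ℂ →+* ℂ).comp z'.2))) =
            (if z = z' then κ * ε z'.1 ((σ : ℂ →+* ℂ).comp z'.2) else 0) -
              (if inv z = z' then κ * ε z'.1 ((σ : ℂ →+* ℂ).comp z'.2) else 0) := by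
          intro z'
          have h4 : (z = inv z') ↔ (inv z = z') :=
            ⟨fun h => by rw [h, hinv], fun h => by rw [← h, hinv]⟩
          simp only [Option.some_inj, h4]
          split_ifs <;> ring
        rw [sum_congr rfl fun z' _ => h3 z', sum_sub_distrib, sum_ite_eq univ z,
          sum_ite_eq univ (inv z), if_pos (mem_univ _), if_pos (mem_univ _), hdev w z hw σ]
        have h5 : ε (inv z).1 ((σ : ℂ →+* ℂ).comp (inv z).2) =
            - ε z.1 ((σ : ℂ →+* ℂ).comp z.2) := by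
          change ε z.1 ((σ : ℂ →+* ℂ).comp (ComplexEmbedding.conjugate z.2)) = _
          rw [Pool.Agent.TH170.QC.comp_conj, hεc]
        rw [h5]
        ring
    rw [sum_congr rfl fun w _ => h2 w, ← mul_sum, sum_dev_of_isRel he, mul_zero]
  have h0 : ∀ z, a z = 0 := by
    have _ := isAlg
    let j0 : AlgebraicClosure ℚ →+* ℂ := (IsAlgClosed.lift : AlgebraicClosure ℚ →ₐ[ℚ] ℂ)
    have hbij : ∀ i, Function.Bijective (fun φ : K i →+* AlgebraicClosure ℚ => j0.comp φ) := by
      intro i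
      refine ⟨fun φ φ' h => RingHom.ext fun x => j0.injective (RingHom.congr_fun h x),
        fun ψ => exists_factor j0 ψ⟩
    let E : ∀ i, (K i →+* AlgebraicClosure ℚ) ≃ (K i →+* ℂ) := fun i =>
      Equiv.ofBijective _ (hbij i)
    have hE : ∀ i φ, E i φ = j0.comp φ := fun i φ => rfl
    let EE : (Σ i, (K i →+* AlgebraicClosure ℚ)) ≃ X := Equiv.sigmaCongrRight E
    have hEE : ∀ x, EE x = ⟨x.1, j0.comp x.2⟩ := fun x => rfl
    have h1 := hs (fun x => (a (EE x) : ℚ)) (by
      intro x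
      have h2 : EE ⟨x.1, cbar x.2⟩ = inv (EE x) := by
        rw [hEE, hEE]
        exact congrArg (Sigma.mk x.1) (comp_cbar j0 x.2)
      rw [h2, hc]
      push_cast
      rfl) (by
      intro J
      obtain ⟨σ, hσ⟩ := exists_sigma ν j0 J
      rw [← hrel' σ]
      refine Fintype.sum_equiv EE _ _ fun x => ?_
      have h3 : ε (EE x).1 ((σ : ℂ →+* ℂ).comp (EE x).2) = dv p n π x.1 (J.comp x.2) := by
        rw [hEE]
        simp only [ε]
        congr 1
        refine RingHom.ext fun y => ?_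
        exact hσ (x.2 y)
      rw [h3]
      push_cast
      rfl)
    intro z
    have h2 := h1 (EE.symm z)
    rw [Equiv.apply_symm_apply] at h2
    exact_mod_cast h2
  refine mem_of_symm _ F inv hinv ?_ ?_ ?_ ?_ (fun w => (e w : ℤ)) ?_
  · rintro ⟨i, φ⟩ h
    exact conj_ne φ (eq_of_heq (Sigma.mk.inj h).2)
  · intro w hw
    apply single_mem
    by_contra h
    have h1 := hF2 w h
    rw [hw] at h1
    exact absurd h1 (by simp)
  · intro w w' z hz hz'
    refine pair_mem w w' fun σ => ?_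
    rw [hdev w z hz, hdev w' (inv z) hz']
    have h5 : ε (inv z).1 ((σ : ℂ →+* ℂ).comp (inv z).2) =
        - ε z.1 ((σ : ℂ →+* ℂ).comp z.2) := by
      change ε z.1 ((σ : ℂ →+* ℂ).comp (ComplexEmbedding.conjugate z.2)) = _
      rw [Pool.Agent.TH170.QC.comp_conj, hεc]
    rw [h5]
    ring
  · intro w z hz
    exact ⟨conjE w, hFc w z hz⟩
  · intro z
    have h1 := h0 z
    simp only [a, mul_sub, mul_ite, mul_one, mul_zero, sum_sub_distrib] at h1
    exact sub_eq_zero.1 h1

theorem tb_frobenius {n : ℕ} (hn : 0 < n) {π : ∀ i, K i} (hW : π ∈ Weil p K n)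
    (hG : Good p n π) {Ω V : Type} [Field Ω] [IsAlgClosed Ω] [CharZero Ω] {T : Homology Ω V}
    (hT : IsHomology T) {X : V} (hX : Generated T (IsAbelianOfFrobenius ν n π T) X) : TB T X := by
  refine tb_generated hT (fun X hX => ?_) hX
  obtain ⟨Y, C, D, g, h1, hC, hD, hX⟩ := hX
  exact tb_abelian hT hC (tateHolds_elem (elementary_of_spans hn hW ((good_iff hW).1 hG) h1)
    (fun k => Or.inr ⟨k, RingHom.id _, 1, 1, one_pos, one_pos, rfl, rfl⟩) hC) hD hX

end Pool.Agent.K4H22.P
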